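import Pool.Agent.Y142.ZS.Stm
import Pool.Agent.Y142.SS.Stm
import Pool.Agent.Y142.ZI.Resc
import Pool.Agent.Y255.SS.LF

/-!
Project OI, job TYPCU: the local type of a full cycle, unramified. The reduction of the rescaled
polynomial is an even irreducible polynomial over the prime field, and a Frobenius element of
`ℚ_ℓ` permutes its roots cyclically.
-/

set_option autoImplicit false

open Polynomial

namespace Pool.Agent.Q13.OI.TYPCU

/-- an element of the field with `ℓ ^ (2 n)` elements with `θ ^ (ℓ ^ n) = - θ` and large order -/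
theorem exists_theta (ℓ : ℕ) [hℓ : Fact ℓ.Prime] (h2 : ℓ ≠ 2) (n : ℕ) (hn : 0 < n) :
    ∃ θ : GaloisField ℓ (2 * n), θ ^ (ℓ ^ n) = -θ ∧
      ∀ d : ℕ, 0 < d → d ≤ n → θ ^ (ℓ ^ d) ≠ θ := by
  classical
  have hn2 : 2 * n ≠ 0 := by omega
  have hcard : Nat.card (GaloisField ℓ (2 * n)) = ℓ ^ (2 * n) := GaloisField.card ℓ (2 * n) hn2
  have hfin : Finite (GaloisField ℓ (2 * n)) := Nat.finite_of_card_ne_zero (by
    rw [hcard]; exact pow_ne_zero _ hℓ.out.ne_zero)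
  obtain ⟨ζ, hζ⟩ := IsCyclic.exists_ofOrder_eq_natCard (α := (GaloisField ℓ (2 * n))ˣ)
  have hunits : Nat.card (GaloisField ℓ (2 * n))ˣ = ℓ ^ (2 * n) - 1 := by
    rw [Nat.card_units, hcard]
  rw [hunits] at hζ
  have hodd : ℓ % 2 = 1 := by
    rcases hℓ.out.eq_two_or_odd with h | h
    · exact absurd h h2
    · exact h
  have hq : ∃ m : ℕ, ℓ ^ n = 2 * m + 1 := by
    have h1 : Odd (ℓ ^ n) := (Nat.odd_iff.2 hodd).pow
    exact h1
  obtain ⟨m, hm⟩ := hq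
  have hm1 : 1 ≤ m := by
    have h3 : 3 ≤ ℓ := by
      have := hℓ.out.two_le
      omega
    have h4 : ℓ ^ 1 ≤ ℓ ^ n := Nat.pow_le_pow_right (by omega) hn
    rw [pow_one] at h4
    omega
  have hord : ℓ ^ (2 * n) - 1 = (m + 1) * (2 * (2 * m)) := by
    rw [two_mul, pow_add, hm]
    have : (2 * m + 1) * (2 * m + 1) = (m + 1) * (2 * (2 * m)) + 1 := by ring
    omega
  rw [hord] at hζ
  have hord2 : orderOf (ζ ^ (m + 1)) = 2 * (2 * m) := by
    rw [orderOf_pow_of_dvd (by omega) (by rw [hζ]; exact Dvd.intro _ rfl), hζ]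
    exact Nat.mul_div_cancel_left _ (by omega)
  have hord3 : orderOf ((ζ ^ (m + 1)) ^ (2 * m)) = 2 := by
    rw [orderOf_pow_of_dvd (by omega) (by rw [hord2]; exact Dvd.intro_left _ rfl), hord2]
    exact Nat.mul_div_cancel _ (by omega)
  have hord4 : orderOf ((ζ ^ (m + 1) : (GaloisField ℓ (2 * n))ˣ) : GaloisField ℓ (2 * n)) =
      2 * (2 * m) := by
    rw [orderOf_units, hord2]
  have hneg : (((ζ ^ (m + 1) : (GaloisField ℓ (2 * n))ˣ) : GaloisField ℓ (2 * n))) ^ (2 * m) = -1 := by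
    have h1 := pow_orderOf_eq_one ((ζ ^ (m + 1)) ^ (2 * m))
    rw [hord3] at h1
    have h2' : ((ζ ^ (m + 1)) ^ (2 * m)) ≠ 1 := by
      intro h
      rw [h, orderOf_one] at hord3
      omega
    have h3 : ((((ζ ^ (m + 1)) ^ (2 * m) : (GaloisField ℓ (2 * n))ˣ) : GaloisField ℓ (2 * n))) ^ 2 = 1 := by
      rw [← Units.val_pow_eq_pow_val, h1, Units.val_one]
    have h4 : (((ζ ^ (m + 1)) ^ (2 * m) : (GaloisField ℓ (2 * n))ˣ) : GaloisField ℓ (2 * n)) ≠ 1 := by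
      intro h
      exact h2' (Units.ext h)
    rw [← Units.val_pow_eq_pow_val]
    rcases mul_self_eq_one_iff.1 ((sq _).symm.trans h3) with h | h
    · exact absurd h h4
    · exact h
  refine ⟨((ζ ^ (m + 1) : (GaloisField ℓ (2 * n))ˣ) : GaloisField ℓ (2 * n)), ?_, ?_⟩
  · rw [hm, pow_succ, hneg, neg_one_mul]
  · intro d hd hdn h
    have hne : ((ζ ^ (m + 1) : (GaloisField ℓ (2 * n))ˣ) : GaloisField ℓ (2 * n)) ≠ 0 :=
      Units.ne_zero _
    have hp : 1 < ℓ ^ d := Nat.one_lt_pow (by omega) hℓ.out.one_lt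
    have h1 : ((ζ ^ (m + 1) : (GaloisField ℓ (2 * n))ˣ) : GaloisField ℓ (2 * n)) ^ (ℓ ^ d - 1) = 1 := by
      have h5 : ((ζ ^ (m + 1) : (GaloisField ℓ (2 * n))ˣ) : GaloisField ℓ (2 * n)) ^ (ℓ ^ d - 1) *
          ((ζ ^ (m + 1) : (GaloisField ℓ (2 * n))ˣ) : GaloisField ℓ (2 * n)) =
          1 * ((ζ ^ (m + 1) : (GaloisField ℓ (2 * n))ˣ) : GaloisField ℓ (2 * n)) := by
        rw [← pow_succ, Nat.sub_add_cancel hp.le, h, one_mul]
      exact mul_right_cancel₀ hne h5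
    have h6 := orderOf_dvd_of_pow_eq_one h1
    rw [hord4] at h6
    have h7 := Nat.le_of_dvd (by omega) h6
    have h8 : ℓ ^ d ≤ ℓ ^ n := Nat.pow_le_pow_right (by omega) hdn
    omega

/-- evaluation at a power of Frobenius -/
theorem aeval_pow_card (ℓ : ℕ) [hℓ : Fact ℓ.Prime] {K : Type} [CommRing K] [Algebra (ZMod ℓ) K]
    (f : (ZMod ℓ)[X]) (y : K) (i : ℕ) : aeval (y ^ (ℓ ^ i)) f = (aeval y f) ^ (ℓ ^ i) := by
  induction i with
  | zero => simp
  | succ i ih =>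
    rw [pow_succ ℓ i, pow_mul, pow_mul, ← ih, ← map_pow, ← ZMod.expand_card, expand_aeval]

/-- an even irreducible polynomial of degree `2 n` -/
theorem exists_irr (ℓ : ℕ) [hℓ : Fact ℓ.Prime] (h2 : ℓ ≠ 2) (n : ℕ) (hn : 0 < n) :
    ∃ s : (ZMod ℓ)[X], s.Monic ∧ s.natDegree = n ∧ Irreducible (expand (ZMod ℓ) 2 s) := by
  classical
  obtain ⟨θ, hθ1, hθ2⟩ := exists_theta ℓ h2 n hn
  have hn2 : 2 * n ≠ 0 := by omega
  have hint : IsIntegral (ZMod ℓ) θ := Algebra.IsIntegral.isIntegral θ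
  set r := minpoly (ZMod ℓ) θ with hr
  have hirr : Irreducible r := minpoly.irreducible hint
  have hmon : r.Monic := minpoly.monic hint
  have hdvd : r.natDegree ∣ 2 * n := by
    have h1 := minpoly.degree_dvd hint
    rwa [GaloisField.finrank ℓ hn2] at h1
  have hdpos : 0 < r.natDegree := hirr.natDegree_pos
  have hdn : n < r.natDegree := by
    by_contra hcon
    push Not at hcon
    apply hθ2 r.natDegree hdpos hcon
    have h1 := (hirr.natDegree_dvd_iff_dvd_X_pow_card_pow_sub_X).1 (dvd_refl r.natDegree)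
    rw [Nat.card_zmod] at h1
    have h3 := (minpoly.dvd_iff).1 h1
    rw [map_sub, map_pow, aeval_X] at h3
    exact sub_eq_zero.1 h3
  have hdeg : r.natDegree = 2 * n := by
    obtain ⟨c, hc⟩ := hdvd
    have hc1 : c = 1 := by
      have h1 : c < 2 := by
        by_contra hcon
        push Not at hcon
        have := Nat.mul_le_mul_left r.natDegree hcon
        omega
      have h2' : c ≠ 0 := by
        rintro rfl
        omega
      omega
    rw [hc1, mul_one] at hc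
    exact hc.symm
  -- evenness
  have heven : r.comp (-X) = r := by
    have hroot : aeval (-θ) r = 0 := by
      rw [← hθ1, aeval_pow_card, minpoly.aeval, zero_pow (pow_ne_zero _ hℓ.out.ne_zero)]
    have hroot2 : aeval θ (r.comp (-X)) = 0 := by
      rw [aeval_comp, map_neg, aeval_X, hroot]
    have hd := minpoly.dvd _ _ hroot2
    have hnX : (-X : (ZMod ℓ)[X]).natDegree = 1 := by rw [natDegree_neg, natDegree_X]
    have hm2 : (r.comp (-X)).Monic := by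
      unfold Monic
      rw [leadingCoeff_comp (by rw [hnX]; exact one_ne_zero), hmon.leadingCoeff, leadingCoeff_neg,
        leadingCoeff_X, hdeg, one_mul, pow_mul]
      simp
    have hdeg2 : (r.comp (-X)).natDegree ≤ r.natDegree := by
      rw [natDegree_comp, hnX, mul_one]
    exact (eq_of_monic_of_dvd_of_natDegree_le hmon hm2 hd hdeg2)
  have hodd : ∀ j, ¬ 2 ∣ j → r.coeff j = 0 := by
    intro j hj
    have h1 : (r.comp (-X)).coeff j = (-1) ^ j * r.coeff j := by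
      have h5 : (-X : (ZMod ℓ)[X]) = C (-1) * X := by simp
      rw [h5, comp_C_mul_X_coeff, mul_comm]
    rw [heven] at h1
    have h3 : Odd j := by
      rw [Nat.odd_iff]; omega
    rw [h3.neg_one_pow] at h1
    have h4 : (2 : ZMod ℓ) * r.coeff j = 0 := by linear_combination h1
    rcases mul_eq_zero.1 h4 with h | h
    · exfalso
      have h6 : ((2 : ℕ) : ZMod ℓ) = 0 := by exact_mod_cast h
      rw [ZMod.natCast_eq_zero_iff] at h6
      exact h2 ((Nat.prime_dvd_prime_iff_eq hℓ.out Nat.prime_two).1 h6)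
    · exact h
  have hexp : expand (ZMod ℓ) 2 (contract 2 r) = r := by
    ext j
    rw [coeff_expand (by norm_num)]
    split_ifs with h
    · rw [coeff_contract (by norm_num), Nat.div_mul_cancel h]
    · exact (hodd j h).symm
  refine ⟨contract 2 r, ?_, ?_, ?_⟩
  · have h1 := hmon.leadingCoeff
    rw [← hexp, leadingCoeff_expand (by norm_num)] at h1
    exact h1
  · have h1 := hdeg
    rw [← hexp, natDegree_expand] at h1
    omega
  · rw [hexp]; exact hirr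

section loc

variable {ℓ : ℕ} [hℓ : Fact ℓ.Prime]

open Pool.Agent.Y255.SS

/-- the residue of the iterates of a Frobenius element -/
theorem frob_iter {τ : AlgebraicClosure ℚ_[ℓ] ≃ₐ[ℚ_[ℓ]] AlgebraicClosure ℚ_[ℓ]}
    (hτ : ∀ x : AlgebraicClosure ℚ_[ℓ], ‖x‖ ≤ 1 → ‖τ x - x ^ ℓ‖ < 1)
    (x : AlgebraicClosure ℚ_[ℓ]) (hx : IsIntegral ℤ_[ℓ] x) (i : ℕ) :
    ∃ h : IsIntegral ℤ_[ℓ] ((τ ^ i) x),
      Ideal.Quotient.mk (mI ℓ) (⟨(τ ^ i) x, h⟩ : BB ℓ) =
        (Ideal.Quotient.mk (mI ℓ) (⟨x, hx⟩ : BB ℓ)) ^ (ℓ ^ i) := by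
  induction i with
  | zero =>
    have h0 : (Ideal.Quotient.mk (mI ℓ) (⟨x, hx⟩ : BB ℓ)) ^ (ℓ ^ 0) =
        Ideal.Quotient.mk (mI ℓ) (⟨x, hx⟩ : BB ℓ) := by rw [pow_zero, pow_one]
    exact ⟨hx, h0.symm⟩
  | succ i ih =>
    obtain ⟨h, hi⟩ := ih
    have h1 : (τ ^ (i + 1)) x = τ ((τ ^ i) x) := by
      rw [pow_succ']; rfl
    have h2 := hτ _ (le_of_int ℓ h)
    have h3 : IsIntegral ℤ_[ℓ] ((τ ^ (i + 1)) x) := by
      rw [h1]
      apply int_of_le
      have h4 : ‖((τ ^ i) x) ^ ℓ‖ ≤ 1 := le_of_int ℓ (h.pow ℓ)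
      have h5 : ‖(τ ((τ ^ i) x) - ((τ ^ i) x) ^ ℓ) + ((τ ^ i) x) ^ ℓ‖ ≤ max _ _ :=
        IsUltrametricDist.norm_add_le_max (S := PadicAlgCl ℓ) _ _
      rw [sub_add_cancel] at h5
      exact h5.trans (max_le h2.le h4)
    refine ⟨h3, ?_⟩
    rw [pow_succ ℓ i, pow_mul, ← hi, ← map_pow]
    refine Ideal.Quotient.eq.2 ?_
    rw [mem_mI]
    have h6 : (((⟨(τ ^ (i + 1)) x, h3⟩ : BB ℓ) - (⟨(τ ^ i) x, h⟩ : BB ℓ) ^ ℓ : BB ℓ) :
        AlgebraicClosure ℚ_[ℓ]) = τ ((τ ^ i) x) - ((τ ^ i) x) ^ ℓ := by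
      rw [← h1]; rfl
    rw [h6]
    exact h2

/-- the residue field homomorphism -/
theorem exists_psi (ℓ : ℕ) [hℓ : Fact ℓ.Prime] : ∃ ψ : ZMod ℓ →+* (BB ℓ ⧸ mI ℓ),
    ∀ a : ℤ_[ℓ], ψ (PadicInt.toZMod a) = Ideal.Quotient.mk (mI ℓ) (algebraMap ℤ_[ℓ] (BB ℓ) a) := by
  have hsurj : Function.Surjective (PadicInt.toZMod (p := ℓ)) := ZMod.ringHom_surjective _
  have hker : RingHom.ker (PadicInt.toZMod (p := ℓ)) ≤
      RingHom.ker ((Ideal.Quotient.mk (mI ℓ)).comp (algebraMap ℤ_[ℓ] (BB ℓ))) := by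
    intro a ha
    rw [PadicInt.ker_toZMod, IsLocalRing.mem_maximalIdeal, PadicInt.mem_nonunits] at ha
    rw [RingHom.mem_ker, RingHom.comp_apply, Ideal.Quotient.eq_zero_iff_mem, mem_mI, norm_alg]
    exact ha
  refine ⟨RingHom.liftOfSurjective _ hsurj ⟨_, hker⟩, fun a => ?_⟩
  exact RingHom.liftOfRightInverse_comp_apply _ _ _ _ _

/-- the iterates of Frobenius at a root -/
theorem iter_ne {τ : AlgebraicClosure ℚ_[ℓ] ≃ₐ[ℚ_[ℓ]] AlgebraicClosure ℚ_[ℓ]}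
    (hτ : ∀ x : AlgebraicClosure ℚ_[ℓ], ‖x‖ ≤ 1 → ‖τ x - x ^ ℓ‖ < 1)
    {r : (ZMod ℓ)[X]} (hr : Irreducible r) {R : ℤ_[ℓ][X]} (hR : R.map PadicInt.toZMod = r)
    (x : AlgebraicClosure ℚ_[ℓ]) (hx : IsIntegral ℤ_[ℓ] x) (hroot : aeval x R = 0)
    (e : ℕ) (he : 0 < e) (hed : e < r.natDegree) : (τ ^ e) x ≠ x := by
  intro hcon
  obtain ⟨h, hi⟩ := frob_iter hτ x hx e
  obtain ⟨ψ, hψ⟩ := exists_psi ℓ
  set xb : BB ℓ ⧸ mI ℓ := Ideal.Quotient.mk (mI ℓ) (⟨x, hx⟩ : BB ℓ) with hxb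
  have h1 : xb ^ (ℓ ^ e) = xb := by
    rw [← hi]
    congr 1
    exact Subtype.ext hcon
  have h2 : eval₂ ψ xb r = 0 := by
    rw [← hR, eval₂_map]
    have h3 : ψ.comp PadicInt.toZMod = (Ideal.Quotient.mk (mI ℓ)).comp (algebraMap ℤ_[ℓ] (BB ℓ)) :=
      RingHom.ext hψ
    rw [h3, hxb, ← hom_eval₂]
    have h4 : eval₂ (algebraMap ℤ_[ℓ] (BB ℓ)) (⟨x, hx⟩ : BB ℓ) R = 0 := by
      apply Subtype.ext
      have h5 : (((eval₂ (algebraMap ℤ_[ℓ] (BB ℓ)) (⟨x, hx⟩ : BB ℓ) R : BB ℓ)) :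
          AlgebraicClosure ℚ_[ℓ]) = aeval x R := by
        have h6 := hom_eval₂ R (algebraMap ℤ_[ℓ] (BB ℓ)) (integralClosure ℤ_[ℓ]
          (AlgebraicClosure ℚ_[ℓ])).val.toRingHom (⟨x, hx⟩ : BB ℓ)
        exact h6
      rw [h5, hroot]
      rfl
    rw [h4, map_zero]
  have h7 : ¬ r ∣ X ^ ℓ ^ e - X := by
    intro hd
    have h8 := hr.natDegree_dvd_of_dvd_X_pow_card_pow_sub_X (n := e) (by rw [Nat.card_zmod]; exact hd)
    exact absurd (Nat.le_of_dvd he h8) (not_le.2 hed)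
  obtain ⟨a, b, hab⟩ := (hr.coprime_iff_not_dvd).2 h7
  have h9 := congrArg (eval₂ ψ xb) hab
  rw [eval₂_add, eval₂_mul, eval₂_mul, h2, eval₂_sub, eval₂_pow, eval₂_X, h1, sub_self, mul_zero,
    mul_zero, add_zero, eval₂_one] at h9
  exact zero_ne_one h9

end loc

section fin

variable {ℓ : ℕ} [hℓ : Fact ℓ.Prime]

open Pool.Agent.Y255.SS Pool.Agent.Y142.ZI

/-- a monic polynomial with coefficients close to those of an integral one -/
theorem lift_near {R₀ R : ℚ_[ℓ][X]} {P : ℤ_[ℓ][X]}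
    (hP : P.map (algebraMap ℤ_[ℓ] ℚ_[ℓ]) = R₀) (hR : R.Monic)
    (hc : ∀ j, ‖(R - R₀).coeff j‖ < 1) :
    ∃ S : ℤ_[ℓ][X], S.map (algebraMap ℤ_[ℓ] ℚ_[ℓ]) = R ∧ S.Monic ∧
      S.map PadicInt.toZMod = P.map PadicInt.toZMod := by
  have h1 : ∀ j, ‖R.coeff j‖ ≤ 1 := by
    intro j
    have h2 : R.coeff j = (R - R₀).coeff j + R₀.coeff j := by rw [coeff_sub]; ring
    rw [h2]
    have h3 : ‖R₀.coeff j‖ ≤ 1 := by
      rw [← hP, coeff_map]
      exact PadicInt.norm_le_one _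
    exact (IsUltrametricDist.norm_add_le_max _ _).trans (max_le (hc j).le h3)
  have h2 : R ∈ Polynomial.lifts (algebraMap ℤ_[ℓ] ℚ_[ℓ]) := by
    rw [Polynomial.lifts_iff_coeff_lifts]
    intro n
    exact ⟨⟨R.coeff n, h1 n⟩, rfl⟩
  obtain ⟨q, hq1, _, hq3⟩ := Polynomial.lifts_and_natDegree_eq_and_monic h2 hR
  refine ⟨q, hq1, hq3, ?_⟩
  ext j
  rw [coeff_map, coeff_map, ← sub_eq_zero, ← map_sub, ← RingHom.mem_ker, PadicInt.ker_toZMod,
    IsLocalRing.mem_maximalIdeal, PadicInt.mem_nonunits]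
  have h3 := hc j
  rw [← hq1, ← hP, coeff_sub, coeff_map, coeff_map, ← map_sub] at h3
  exact h3

theorem t (hNICE : Pool.Agent.Y142.ZI.S_NICE) (hLF : Pool.Agent.Y142.SS.S_LF) :
    Pool.Agent.Y142.ZS.S_TYPCU := by
  classical
  intro ℓ _ hℓ2 n hn
  obtain ⟨s, hs1, hs2, hs3⟩ := exists_irr ℓ hℓ2 n hn
  have hsl : s ∈ Polynomial.lifts (PadicInt.toZMod (p := ℓ)) := by
    rw [Polynomial.lifts_iff_coeff_lifts]
    intro j
    exact ZMod.ringHom_surjective (PadicInt.toZMod (p := ℓ)) (s.coeff j)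
  obtain ⟨S, hS1, hS2, hS3⟩ := Polynomial.lifts_and_natDegree_eq_and_monic hsl hs1
  have hSe : (expand ℤ_[ℓ] 2 S).Monic := by
    unfold Monic
    rw [leadingCoeff_expand (by norm_num)]
    exact hS3
  have hSr : (expand ℤ_[ℓ] 2 S).map PadicInt.toZMod = expand (ZMod ℓ) 2 s := by
    rw [map_expand, hS1]
  have hrdeg : (expand (ZMod ℓ) 2 s).natDegree = 2 * n := by
    rw [natDegree_expand, hs2, mul_comm]
  obtain ⟨τ, hτ⟩ := hLF ℓ
  have hinj : Function.Injective (algebraMap ℤ_[ℓ] ℚ_[ℓ]) := Subtype.val_injective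
  refine ⟨(expand ℤ_[ℓ] 2 S).map (algebraMap ℤ_[ℓ] ℚ_[ℓ]), hSe.map _, ?_, ?_, 1, one_pos, ?_⟩
  · rw [hSe.natDegree_map, natDegree_expand, hS2, hs2, mul_comm]
  · rw [map_expand, expand_eq_comp_X_pow, comp_assoc, X_pow_comp, neg_sq]
  · intro k Q hk hQ hQd hc
    obtain ⟨P, hP1, hP2, hP3⟩ := lift_near (R := resc ℓ k Q) rfl (resc_monic k hQ) hc
    rw [hSr] at hP3
    have hRm : (resc ℓ k Q).Monic := resc_monic k hQ
    have hRd : (resc ℓ k Q).natDegree = 2 * n := by rw [resc_natDegree, hQd]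
    set R : ℚ_[ℓ][X] := resc ℓ k Q with hRdef
    -- roots of `R`
    have hroot : ∀ x : AlgebraicClosure ℚ_[ℓ], aeval x R = 0 → aeval x P = 0 := by
      intro x hx
      rw [← hP1, aeval_map_algebraMap] at hx
      exact hx
    have hint : ∀ x : AlgebraicClosure ℚ_[ℓ], aeval x R = 0 → IsIntegral ℤ_[ℓ] x := by
      intro x hx
      exact ⟨P, hP2, hroot x hx⟩
    have hτroot : ∀ (x : AlgebraicClosure ℚ_[ℓ]) (i : ℕ), aeval x R = 0 →
        aeval ((τ ^ i) x) R = 0 := by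
      intro x i hx
      have h1 := aeval_algHom_apply ((τ ^ i : AlgebraicClosure ℚ_[ℓ] ≃ₐ[ℚ_[ℓ]]
        AlgebraicClosure ℚ_[ℓ]) : AlgebraicClosure ℚ_[ℓ] →ₐ[ℚ_[ℓ]] AlgebraicClosure ℚ_[ℓ]) x R
      rw [hx, map_zero] at h1
      exact h1
    have hR0 : R ≠ 0 := hRm.ne_zero
    have hsplit : (R.map (algebraMap ℚ_[ℓ] (AlgebraicClosure ℚ_[ℓ]))).Splits :=
      IsAlgClosed.splits _
    have hcardr : Multiset.card (R.aroots (AlgebraicClosure ℚ_[ℓ])) = 2 * n := by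
      rw [Polynomial.aroots, ← hsplit.natDegree_eq_card_roots, hRm.natDegree_map, hRd]
    have hstep : ∀ (x : AlgebraicClosure ℚ_[ℓ]), aeval x R = 0 → ∀ i j : ℕ, i < j → j < 2 * n →
        (τ ^ i) x ≠ (τ ^ j) x := by
      intro x hx i j hij hj h
      have h1 : (τ ^ (j - i)) x ≠ x :=
        iter_ne hτ hs3 hP3 x (hint x hx) (hroot x hx) (j - i) (by omega) (by rw [hrdeg]; omega)
      apply h1
      have h2 : (τ ^ j) x = (τ ^ i) ((τ ^ (j - i)) x) := by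
        have h3 : τ ^ j = τ ^ i * τ ^ (j - i) := by
          rw [← pow_add]; congr 1; omega
        rw [h3]; rfl
      rw [h2] at h
      exact ((τ ^ i).injective h).symm
    have hinjOn : ∀ (x : AlgebraicClosure ℚ_[ℓ]), aeval x R = 0 →
        Set.InjOn (fun i : ℕ => (τ ^ i) x) (Finset.range (2 * n) : Finset ℕ) := by
      intro x hx i hi j hj h
      rw [Finset.mem_coe, Finset.mem_range] at hi hj
      rcases lt_trichotomy i j with hlt | heq | hgt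
      · exact absurd h (hstep x hx i j hlt hj)
      · exact heq
      · exact absurd h.symm (hstep x hx j i hgt hi)
    have hsub : ∀ (x : AlgebraicClosure ℚ_[ℓ]), aeval x R = 0 →
        (Finset.range (2 * n)).image (fun i : ℕ => (τ ^ i) x) ⊆
          (R.aroots (AlgebraicClosure ℚ_[ℓ])).toFinset := by
      intro x hx z hz
      obtain ⟨i, _, hi⟩ := Finset.mem_image.1 hz
      rw [Multiset.mem_toFinset, mem_aroots]
      refine ⟨hR0, ?_⟩
      rw [← hi]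
      exact hτroot x i hx
    have hcardi : ∀ (x : AlgebraicClosure ℚ_[ℓ]), aeval x R = 0 →
        ((Finset.range (2 * n)).image (fun i : ℕ => (τ ^ i) x)).card = 2 * n := by
      intro x hx
      rw [Finset.card_image_of_injOn (hinjOn x hx), Finset.card_range]
    have hle : (R.aroots (AlgebraicClosure ℚ_[ℓ])).toFinset.card ≤ 2 * n := by
      rw [← hcardr]
      exact Multiset.toFinset_card_le _
    have heq : ∀ (x : AlgebraicClosure ℚ_[ℓ]), aeval x R = 0 →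
        (Finset.range (2 * n)).image (fun i : ℕ => (τ ^ i) x) =
          (R.aroots (AlgebraicClosure ℚ_[ℓ])).toFinset := by
      intro x hx
      apply Finset.eq_of_subset_of_card_le (hsub x hx)
      rw [hcardi x hx]
      exact hle
    have horb : ∀ x y : AlgebraicClosure ℚ_[ℓ], aeval x R = 0 → aeval y R = 0 →
        ∃ i : ℕ, (τ ^ i) x = y := by
      intro x y hx hy
      have h1 : y ∈ (R.aroots (AlgebraicClosure ℚ_[ℓ])).toFinset := by
        rw [Multiset.mem_toFinset, mem_aroots]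
        exact ⟨hR0, hy⟩
      rw [← heq x hx] at h1
      obtain ⟨i, _, hi⟩ := Finset.mem_image.1 h1
      exact ⟨i, hi⟩
    have hsep : R.Separable := by
      rw [← Polynomial.nodup_aroots_iff_of_splits hR0 hsplit, ← Multiset.toFinset_card_eq_card_iff_nodup,
        hcardr]
      obtain ⟨x, hx⟩ : ∃ x : AlgebraicClosure ℚ_[ℓ], aeval x R = 0 := by
        apply IsAlgClosed.exists_aeval_eq_zero
        rw [degree_eq_natDegree hR0, hRd]
        exact_mod_cast (by omega : 2 * n ≠ 0)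
      rw [← heq x hx, hcardi x hx]
    have hl0 : algebraMap ℚ_[ℓ] (AlgebraicClosure ℚ_[ℓ]) ((ℓ : ℚ_[ℓ]) ^ k) ≠ 0 :=
      (_root_.map_ne_zero _).2 (ell_pow_ne k)
    refine ⟨separable_of_resc k hsep, ?_, τ, ?_⟩
    · have hnorm : ∀ x : AlgebraicClosure ℚ_[ℓ], aeval x Q = 0 → ‖x - 1‖ ≤ (ℓ : ℝ)⁻¹ := by
        intro x hx
        have h1 := (aeval_resc k Q x).2 hx
        have h2 := le_of_int ℓ (hint _ h1)
        have h3 : x - 1 = algebraMap ℚ_[ℓ] (AlgebraicClosure ℚ_[ℓ]) ((ℓ : ℚ_[ℓ]) ^ k) *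
            ((x - 1) / algebraMap ℚ_[ℓ] (AlgebraicClosure ℚ_[ℓ]) ((ℓ : ℚ_[ℓ]) ^ k)) := by
          rw [mul_div_cancel₀ _ hl0]
        have h4 : ‖algebraMap ℚ_[ℓ] (AlgebraicClosure ℚ_[ℓ]) ((ℓ : ℚ_[ℓ]) ^ k)‖ =
            ‖(ℓ : ℚ_[ℓ]) ^ k‖ := PadicAlgCl.norm_extends ℓ _
        rw [h3, norm_mul, h4, norm_pow, Padic.norm_p]
        have hl1 : (1 : ℝ) ≤ ℓ := by exact_mod_cast (Fact.out : ℓ.Prime).one_lt.le
        have h5 : ((ℓ : ℝ)⁻¹) ^ k ≤ (ℓ : ℝ)⁻¹ := by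
          apply pow_le_of_le_one (by positivity) (inv_le_one_of_one_le₀ hl1) (by omega)
        calc ((ℓ : ℝ)⁻¹) ^ k * ‖(x - 1) / algebraMap ℚ_[ℓ] (AlgebraicClosure ℚ_[ℓ]) ((ℓ : ℚ_[ℓ]) ^ k)‖
            ≤ (ℓ : ℝ)⁻¹ * 1 := mul_le_mul h5 h2 (norm_nonneg _) (by positivity)
          _ = (ℓ : ℝ)⁻¹ := mul_one _
      intro j x y hj hx hy hxy
      exact hNICE ℓ hℓ2 x y j hj (hnorm x hx) (hnorm y hy) hxy
    · intro x y hx hy
      obtain ⟨i, hi⟩ := horb _ _ ((aeval_resc k Q x).2 hx) ((aeval_resc k Q y).2 hy)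
      refine ⟨i, ?_⟩
      rw [map_div₀, AlgEquiv.commutes, map_sub, map_one, div_left_inj' hl0] at hi
      exact sub_left_injective hi

end fin

end Pool.Agent.Q13.OI.TYPCU
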